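import Pool.Agent.H668.Fib.Final

/-!
# MP_b1773a_an: fibre sums of Kakeya sets

Write points of `ℝ^(d+1)` as `(t, y)`, with height `t` and `y ∈ ℝ^d`.  For invertible linear maps
`L_1, …, L_k` of `ℝ^d` the fibre sum of a set `K ⊆ ℝ^(d+1)` is the set of all
`(t, L_1 x_1 + ⋯ + L_k x_k)` with `(t, x_1), …, (t, x_k) ∈ K`; all summands have the same height.
For every `η > 0` there is `N`, depending only on `d` and `η`, such that for every Kakeya set `K`,
every `k ≥ N` and all invertible `L_1, …, L_k` the fibre sum has lower Minkowski dimension at least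
`d + 1 - η`.  For `k = 1` and `L_1` the identity the fibre sum is `K`, so the Kakeya conjecture (for
the Minkowski dimension) says that one can take `N = 1`.

The proof. Let `K_t` be the slice of `K` at height `t`, and let `A_i(t)` be the set of the averages
of `2^i` points of `K_t`. At a scale `δ` the covering numbers of `A_i(t)` increase with `i` and are
at most a power of `1/δ`, so for some `i` below a constant the set `A_i(t)` has small doubling, up to
`δ^(-γ)`, for most heights `t`. So `K` has slices contained in structured sets, and the counting of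
differences along many slopes bounds the size of these structured sets from below. By the
inequality of Plünnecke, applied to the partial sums, the slice of the fibre sum is at least as
large as `A_i(t)`, up to `δ^(-γ)`, if `k` is large.
-/

set_option autoImplicit false

open MeasureTheory Set Filter Topology

namespace Pool.Agent.Results.MP_b1773a_an.FibreSums

/-- The space `ℝ^(d+1)`. -/
abbrev Space (d : ℕ) : Type := EuclideanSpace ℝ (Fin (d + 1))

/-- A Kakeya set: a compact set containing a unit segment in every direction. -/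
def IsKakeya {d : ℕ} (K : Set (Space d)) : Prop :=
  IsCompact K ∧ ∀ e : Space d, ‖e‖ = 1 → ∃ a : Space d, ∀ t ∈ Icc (0 : ℝ) 1, a + t • e ∈ K

/-- The slice of `K ⊆ ℝ^(d+1)` at height `t`: the set of all `y ∈ ℝ^d` with `(t, y) ∈ K`. -/
def slice {d : ℕ} (K : Set (Space d)) (t : ℝ) : Set (Fin d → ℝ) :=
  {y | WithLp.toLp 2 (Fin.cons t y : Fin (d + 1) → ℝ) ∈ K}

/-- The fibre sum: the set of all points `(t, L_1 x_1 + ⋯ + L_k x_k)` with `(t, x_i) ∈ K` for all
`i`, where `L_1, …, L_k` are invertible linear maps of `ℝ^d`. -/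
def fibreSum {d k : ℕ} (L : Fin k → (Fin d → ℝ) ≃ₗ[ℝ] (Fin d → ℝ)) (K : Set (Space d)) :
    Set (Space d) :=
  {p | ∃ x : Fin k → Fin d → ℝ, (∀ i, x i ∈ slice K (p 0)) ∧
    ∀ j : Fin d, p j.succ = ∑ i, L i (x i) j}

/-- The lower Minkowski dimension `n - limsup_{δ → 0+} log |N_δ K| / log δ`, in `ℝ^n` with
`n = d + 1`. -/
noncomputable def lowerMinkowski {d : ℕ} (K : Set (Space d)) : ℝ :=
  (d + 1 : ℕ) -
    limsup (fun δ : ℝ => Real.log (volume (Metric.thickening δ K)).toReal / Real.log δ) (𝓝[>] 0)

/-- **Fibre sums of Kakeya sets.**  For every `η > 0` there is `N` such that for every Kakeya set in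
`ℝ^(d+1)`, every `k ≥ N` and all invertible linear maps `L_1, …, L_k` of `ℝ^d`, the fibre sum has
lower Minkowski dimension at least `d + 1 - η`. -/
theorem result (d : ℕ) (η : ℝ) (hη : 0 < η) :
    ∃ N : ℕ, ∀ K : Set (Space d), IsKakeya K → ∀ k : ℕ, N ≤ k →
      ∀ L : Fin k → (Fin d → ℝ) ≃ₗ[ℝ] (Fin d → ℝ),
        d + 1 - η ≤ lowerMinkowski (fibreSum L K) := by
  obtain ⟨N, h⟩ := Pool.Agent.H668.Fib.dim_fib d η hη
  exact ⟨N, fun K hK k hk L => h K hK.1 hK.2 k hk L⟩

end Pool.Agent.Results.MP_b1773a_an.FibreSums
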