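import Mathlib
import Pool.Agent.Helper634ord.Kak5

/-!
# MP_b1773a: minima of points of a Kakeya set, and Kakeya sets closed under an order operation

(A) Let `K` be any subset of `ℝ ^ n` which contains a segment parallel to every vector of a set `A`
that is not covered by countably many hyperplanes through the origin, and take any orthonormal
coordinate system.  The coordinatewise minima of `n` points of `K` form a set with interior points,
although `K` may be a null set; the same for maxima.  The set `A` may be very small, for example an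
uncountable subset of the curve `(1, t, ..., t ^ (n-1))`.

(B) An order operation is a map `f : ℝ ^ k → ℝ` which commutes with all nondecreasing maps of the real
line (minimum, maximum, median, every lattice polynomial).  If `K` is closed under some order operation
that is not a projection, applied coordinatewise in some orthonormal coordinate system, then `K` itself
has interior points.

Both hold for sets covered by countably many closed sets: then one of these has the property.

Proof: let `e` be a direction such that directions `e_k` of the set, in general position with respect to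
`e`, converge to `e`; the segments
of direction `e_k` may be assumed to converge.  At a generic time the points of these segments differ
from the limit point by vectors which tend to zero and have pairwise different coordinates.  Choosing
the segments one after the other on rapidly decreasing scales one finds `n` of them and a time on each
such that, in the `i`-th coordinate, the point on the `i`-th segment is the smallest.  This remains
true for all nearby times, and the minima of the `n` points fill a box.
-/

set_option autoImplicit false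

open MeasureTheory Set Metric
open scoped ENNReal

namespace Pool.Agent.Results.MP_b1773a_an.OrderClosedKakeya

open Pool.Agent.Helper634ord (OrderOperation IsProjection LCS)

/-- Euclidean space `ℝ^n`. -/
abbrev E (n : ℕ) : Type := EuclideanSpace ℝ (Fin n)

/-- The set `K` is closed under `f`, applied to the coordinates with respect to the orthonormal
basis `b`. -/
def ClosedIn {n k : ℕ} (b : OrthonormalBasis (Fin n) ℝ (E n)) (K : Set (E n))
    (f : (Fin k → ℝ) → ℝ) : Prop :=
  ∀ c : Fin k → E n, (∀ j, c j ∈ K) → ∃ x ∈ K, ∀ i, b.repr x i = f (fun j => b.repr (c j) i)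

/-- `K` is closed under some order operation which is not a projection, applied coordinatewise in
some orthonormal basis. -/
def OrderClosed {n : ℕ} (K : Set (E n)) : Prop :=
  ∃ (k : ℕ) (f : (Fin k → ℝ) → ℝ), OrderOperation f ∧ ¬ IsProjection f ∧
    ∃ b : OrthonormalBasis (Fin n) ℝ (E n), ClosedIn b K f

/-- For every vector `e ∈ A` the set `K` contains a segment of positive length parallel to `e`. -/
def HasSegments {n : ℕ} (A K : Set (E n)) : Prop :=
  ∀ e ∈ A, ∃ (a : E n) (ρ : ℝ), 0 < ρ ∧ ∀ t ∈ Icc (0 : ℝ) ρ, a + t • e ∈ K

/-- `A` is covered by countably many proper linear subspaces. -/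
def CoveredByHyperplanes {n : ℕ} (A : Set (E n)) : Prop :=
  ∃ H : ℕ → Submodule ℝ (E n), (∀ k, H k ≠ ⊤) ∧ A ⊆ ⋃ k, (H k : Set (E n))

/-- `K` contains a unit segment in every direction. -/
def UnitSegments {n : ℕ} (K : Set (E n)) : Prop :=
  ∀ e : E n, ‖e‖ = 1 → ∃ a : E n, ∀ t ∈ Icc (0 : ℝ) 1, a + t • e ∈ K

/-- The coordinatewise minima of `n` points of `K`, in the coordinates of the orthonormal
basis `b`. -/
def Minima {n : ℕ} (b : OrthonormalBasis (Fin n) ℝ (E n)) (K : Set (E n)) : Set (E n) :=
  {x | ∃ p : Fin n → E n, (∀ c, p c ∈ K) ∧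
    ∀ i, IsLeast (range fun c => b.repr (p c) i) (b.repr x i)}

/-- The coordinatewise maxima of `n` points of `K`, in the coordinates of the orthonormal
basis `b`. -/
def Maxima {n : ℕ} (b : OrthonormalBasis (Fin n) ℝ (E n)) (K : Set (E n)) : Set (E n) :=
  {x | ∃ p : Fin n → E n, (∀ c, p c ∈ K) ∧
    ∀ i, IsGreatest (range fun c => b.repr (p c) i) (b.repr x i)}

theorem lcs_of_closed {n k : ℕ} {b : OrthonormalBasis (Fin n) ℝ (E n)} {K : Set (E n)}
    {f : (Fin k → ℝ) → ℝ} (hf : OrderOperation f) (hp : ¬ IsProjection f) (h : ClosedIn b K f) :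
    LCS ((fun x : E n => fun i => b.repr x i) '' K) := by
  apply Pool.Agent.Helper634ord.closed_cases hf hp
  intro c hc
  choose g hg hgc using hc
  obtain ⟨x, hx, hxf⟩ := h g hg
  refine ⟨x, hx, ?_⟩
  funext i
  show b.repr x i = f (fun j => c j i)
  rw [hxf i]
  congr 1
  funext j
  exact congrFun (hgc j) i

theorem coords_continuous {n : ℕ} (b : OrthonormalBasis (Fin n) ℝ (E n)) :
    Continuous (fun (x : E n) (i : Fin n) => b.repr x i) := by
  apply continuous_pi
  intro i
  have h2 : Continuous (fun x : E n => x i) := by fun_prop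
  exact h2.comp b.repr.continuous

/-- from coordinates to points -/
theorem lift {n : ℕ} (b : OrthonormalBasis (Fin n) ℝ (E n)) (M : Set (E n)) {y₀ : Fin n → ℝ}
    (h : ∀ᶠ y in nhds y₀, ∀ x : E n, (∀ i, b.repr x i = y i) → x ∈ M) :
    (interior M).Nonempty := by
  refine ⟨b.repr.symm (WithLp.toLp 2 y₀), mem_interior_iff_mem_nhds.2 ?_⟩
  have h1 : (fun i => b.repr (b.repr.symm (WithLp.toLp 2 y₀)) i) = y₀ := by
    funext i
    simp
  have h2 := (coords_continuous b).tendsto (b.repr.symm (WithLp.toLp 2 y₀))
  simp only [h1] at h2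
  filter_upwards [h2.eventually h] with x hx
  exact hx x (fun i => rfl)

/-- minima and maxima of points of the sets `K j` -/
theorem extrema {n : ℕ} (hn : 1 ≤ n) (b : ℕ → OrthonormalBasis (Fin n) ℝ (E n)) {K : ℕ → Set (E n)}
    {S : Set (E n)} (hS : ¬ CoveredByHyperplanes S)
    (hseg : ∀ e ∈ S, ∃ j, ∃ a : E n, ∃ ρ : ℝ, 0 < ρ ∧ ∀ t ∈ Icc (0 : ℝ) ρ, a + t • e ∈ K j) :
    ∃ j, (interior (Minima (b j) (K j))).Nonempty ∧ (interior (Maxima (b j) (K j))).Nonempty := by
  obtain ⟨j, a, v, A, W, hA, hW, hv, hWne, hdist, hKseg⟩ :=
    Pool.Agent.Helper634ord.Kak.family1 hn b hS hseg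
  refine ⟨j, ?_, ?_⟩
  · obtain ⟨y₀, hy₀⟩ := Pool.Agent.Helper634ord.Kak.core0 hA hW hv hWne hdist hKseg
    apply lift (b j) _ (y₀ := y₀)
    filter_upwards [hy₀] with y hy x hx
    obtain ⟨p, hp, hmin⟩ := hy
    choose q hq hqp using hp
    refine ⟨q, hq, fun i => ?_⟩
    have h3 : ∀ c i, (b j).repr (q c) i = p c i := fun c i => congrFun (hqp c) i
    rw [hx i]
    constructor
    · exact ⟨i, by show (b j).repr (q i) i = y i; rw [h3, (hmin i).1]⟩
    · rintro _ ⟨c, rfl⟩
      show y i ≤ (b j).repr (q c) i
      rw [h3]
      exact (hmin i).2 c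
  · obtain ⟨y₀, hy₀⟩ := Pool.Agent.Helper634ord.Kak.core0
      (K := {x : Fin n → ℝ | (fun i => -x i) ∈
        (fun x : E n => fun i => (b j).repr x i) '' K j})
      (a := fun i => -a i) (v := fun i => -v i) (A := fun k i => -A k i) (W := fun k i => -W k i)
      (fun i => (hA i).neg) (fun i => (hW i).neg) (fun i => neg_ne_zero.2 (hv i))
      (fun k i => neg_ne_zero.2 (hWne k i))
      (by
        intro k i i' hii h
        apply hdist k i i' hii
        linarith)
      (by
        intro k t ht0 ht1
        have h2 := hKseg k t ht0 ht1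
        have h3 : (fun i => -Pool.Agent.Helper634ord.Kak.pt (fun i => -A k i) (fun i => -W k i) t i) =
            Pool.Agent.Helper634ord.Kak.pt (A k) (W k) t := by
          funext i
          simp only [Pool.Agent.Helper634ord.Kak.pt]
          ring
        show (fun i => -Pool.Agent.Helper634ord.Kak.pt (fun i => -A k i) (fun i => -W k i) t i) ∈
          (fun x : E n => fun i => (b j).repr x i) '' K j
        rw [h3]
        exact h2)
    apply lift (b j) _ (y₀ := fun i => -y₀ i)
    have hneg : Filter.Tendsto (fun y : Fin n → ℝ => fun i => -y i) (nhds (fun i => -y₀ i))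
        (nhds y₀) := by
      have hc : Continuous (fun y : Fin n → ℝ => fun i => -y i) :=
        continuous_pi (fun i => (continuous_apply i).neg)
      have h3 := hc.tendsto (fun i => -y₀ i)
      simpa using h3
    filter_upwards [hneg.eventually hy₀] with y hy x hx
    obtain ⟨p, hp, hmin⟩ := hy
    choose q hq hqp using hp
    refine ⟨q, hq, fun i => ?_⟩
    have h3 : ∀ c i, (b j).repr (q c) i = -p c i := fun c i => congrFun (hqp c) i
    rw [hx i]
    constructor
    · exact ⟨i, by
        show (b j).repr (q i) i = y i
        rw [h3]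
        have := (hmin i).1
        linarith⟩
    · rintro _ ⟨c, rfl⟩
      show (b j).repr (q c) i ≤ y i
      rw [h3]
      have := (hmin i).2 c
      linarith

/-- the closed case -/
theorem closed_interior {n : ℕ} (hn : 1 ≤ n) (b : ℕ → OrthonormalBasis (Fin n) ℝ (E n))
    {K : ℕ → Set (E n)}
    (hK : ∀ j, LCS ((fun x : E n => fun i => (b j).repr x i) '' K j))
    {S : Set (E n)} (hS : ¬ CoveredByHyperplanes S)
    (hseg : ∀ e ∈ S, ∃ j, ∃ a : E n, ∃ ρ : ℝ, 0 < ρ ∧ ∀ t ∈ Icc (0 : ℝ) ρ, a + t • e ∈ K j) :
    ∃ j, (interior (K j)).Nonempty := by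
  obtain ⟨j, a, v, A, W, hA, hW, hv, hWne, hdist, hKseg⟩ :=
    Pool.Agent.Helper634ord.Kak.family1 hn b hS hseg
  obtain ⟨y₀, hy₀⟩ := Pool.Agent.Helper634ord.Kak.interior_of hn (hK j) hA hW hv hWne hdist hKseg
  refine ⟨j, lift (b j) _ (y₀ := y₀) ?_⟩
  filter_upwards [mem_interior_iff_mem_nhds.1 hy₀] with y hy x hx
  obtain ⟨x', hx', hxy⟩ := hy
  have h2 : x = x' := by
    apply (b j).repr.injective
    ext i
    rw [hx i]
    exact (congrFun hxy i).symm
  rw [h2]
  exact hx'

/-- an uncountable set of points of the moment curve is not covered -/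
theorem moment_curve {n : ℕ} (T : Set ℝ) (hT : ¬ T.Countable) :
    ¬ CoveredByHyperplanes
      ((fun t : ℝ => (WithLp.toLp 2 (fun i : Fin n => t ^ (i : ℕ)) : E n)) '' T) := by
  rintro ⟨H, h1, h2⟩
  apply hT
  have hfin : ∀ k, {t : ℝ | (WithLp.toLp 2 (fun i : Fin n => t ^ (i : ℕ)) : E n) ∈ H k}.Finite := by
    intro k
    obtain ⟨u, hu, hu0⟩ : ∃ u ∈ (H k)ᗮ, u ≠ 0 := by
      apply Submodule.exists_mem_ne_zero_of_ne_bot
      intro h
      exact h1 k (Submodule.orthogonal_eq_bot_iff.1 h)
    obtain ⟨i₀, hi₀⟩ : ∃ i, u i ≠ 0 := by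
      by_contra hcon
      push Not at hcon
      apply hu0
      ext i
      exact hcon i
    set p : Polynomial ℝ := ∑ i : Fin n, Polynomial.monomial (i : ℕ) (u i) with hp
    have hp0 : p ≠ 0 := by
      intro h
      apply hi₀
      have h3 : p.coeff (i₀ : ℕ) = u i₀ := by
        rw [hp, Polynomial.finsetSum_coeff]
        simp only [Polynomial.coeff_monomial]
        rw [Finset.sum_eq_single i₀]
        · simp
        · intro b _ hb
          rw [if_neg]
          intro h4
          exact hb (Fin.ext h4)
        · intro h4
          exact absurd (Finset.mem_univ _) h4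
      rw [← h3, h]
      simp
    apply (p.roots.toFinset.finite_toSet).subset
    intro t ht
    have h3 := Submodule.inner_right_of_mem_orthogonal ht hu
    rw [Finset.mem_coe, Multiset.mem_toFinset, Polynomial.mem_roots hp0, Polynomial.IsRoot.def]
    rw [hp, Polynomial.eval_finsetSum]
    simp only [Polynomial.eval_monomial]
    rw [PiLp.inner_apply] at h3
    simpa using h3
  have hcov : T ⊆ ⋃ k, {t : ℝ | (WithLp.toLp 2 (fun i : Fin n => t ^ (i : ℕ)) : E n) ∈ H k} := by
    intro t ht
    obtain ⟨k, hk⟩ := mem_iUnion.1 (h2 ⟨t, ht, rfl⟩)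
    exact mem_iUnion.2 ⟨k, hk⟩
  exact (countable_iUnion (fun k => (hfin k).countable)).mono hcov

/-- **Minima of points of a Kakeya set; Kakeya sets closed under an order operation.**  Let
`n ≥ 1`, and let `A` be a set of vectors which is not covered by countably many proper linear
subspaces.  By (0) every set which is not a null set and every uncountable subset of the curve
`(1, t, ..., t ^ (n-1))` is such a set.

(1) Let `K` be any set which contains a segment parallel to every vector of `A`, and `b` any
orthonormal basis.  Then the coordinatewise minima of `n` points of `K` form a set with interior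
points, and so do the maxima.  More generally, if `K` is covered by countably
many closed sets `F j` and bases `b j` are given, this holds for some `F j` and `b j`.

(2) If `K`, closed or not, is closed under some order operation which is not a projection (applied
coordinatewise in some orthonormal basis) and contains such segments, then `K` has interior
points.  More generally, if `K` contains such segments and is covered by countably many closed sets,
each closed under such an operation in its own basis, one of them has interior points.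

(3) In particular a set which contains a unit segment in every direction and is closed under such an
operation has interior points, positive volume, Hausdorff dimension `n`, and its
`δ`-neighbourhoods have volume at least a positive constant; without the closure hypothesis this
holds for the set of the minima of its `n`-tuples of points. -/
theorem result (n : ℕ) (hn : 1 ≤ n) :
    ((∀ A : Set (E n), volume A ≠ 0 → ¬ CoveredByHyperplanes A) ∧
      ∀ T : Set ℝ, ¬ T.Countable → ¬ CoveredByHyperplanes
        ((fun t : ℝ => (WithLp.toLp 2 (fun i : Fin n => t ^ (i : ℕ)) : E n)) '' T)) ∧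
    (∀ (K A : Set (E n)), ¬ CoveredByHyperplanes A → HasSegments A K →
      ∀ b : OrthonormalBasis (Fin n) ℝ (E n),
        (interior (Minima b K)).Nonempty ∧ (interior (Maxima b K)).Nonempty) ∧
    (∀ (K A : Set (E n)), ¬ CoveredByHyperplanes A → HasSegments A K →
      ∀ F : ℕ → Set (E n), K ⊆ ⋃ j, F j → (∀ j, IsClosed (F j)) →
        ∀ b : ℕ → OrthonormalBasis (Fin n) ℝ (E n),
          ∃ j, (interior (Minima (b j) (F j))).Nonempty ∧ (interior (Maxima (b j) (F j))).Nonempty) ∧
    (∀ K : Set (E n), OrderClosed K → ∀ A : Set (E n), ¬ CoveredByHyperplanes A →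
      HasSegments A K → (interior K).Nonempty) ∧
    (∀ (K : Set (E n)) (F : ℕ → Set (E n)), K ⊆ ⋃ j, F j → (∀ j, IsClosed (F j)) →
      (∀ j, OrderClosed (F j)) → ∀ A : Set (E n), ¬ CoveredByHyperplanes A →
        HasSegments A K → ∃ j, (interior (F j)).Nonempty) ∧
    (∀ K : Set (E n), UnitSegments K → ∀ M : Set (E n),
      ((OrderClosed K ∧ M = K) ∨ ∃ b : OrthonormalBasis (Fin n) ℝ (E n), M = Minima b K) →
        (interior M).Nonempty ∧ 0 < volume M ∧ dimH M = (n : ℝ≥0∞) ∧
          ∃ c > 0, ∀ δ > 0, c ≤ volume (thickening δ M)) := by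
  have h00 : ∀ A : Set (E n), volume A ≠ 0 → ¬ CoveredByHyperplanes A :=
    fun A hA h => hA (Pool.Agent.Helper634ord.Kak.small_null h)
  have h1 : ∀ (K A : Set (E n)), ¬ CoveredByHyperplanes A → HasSegments A K →
      ∀ b : OrthonormalBasis (Fin n) ℝ (E n),
        (interior (Minima b K)).Nonempty ∧ (interior (Maxima b K)).Nonempty := by
    intro K A hA hseg b
    obtain ⟨_, h⟩ := extrema hn (fun _ => b) (K := fun _ => K) hA (fun e he => by
      obtain ⟨a, ρ, hρ, h⟩ := hseg e he
      exact ⟨0, a, ρ, hρ, h⟩)
    exact h
  have h2 : ∀ K : Set (E n), OrderClosed K → ∀ A : Set (E n), ¬ CoveredByHyperplanes A →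
      HasSegments A K → (interior K).Nonempty := by
    rintro K ⟨k, f, hf, hp, b, hb⟩ A hA hseg
    obtain ⟨_, h⟩ := closed_interior hn (fun _ => b) (K := fun _ => K)
      (fun _ => lcs_of_closed hf hp hb) hA (fun e he => by
        obtain ⟨a, ρ, hρ, h⟩ := hseg e he
        exact ⟨0, a, ρ, hρ, h⟩)
    exact h
  refine ⟨⟨h00, fun T hT => moment_curve T hT⟩, h1, ?_, h2, ?_, ?_⟩
  · intro K A hA hseg F hKF hclosed b
    apply extrema hn b (K := F) hA
    intro e he
    obtain ⟨a, ρ, hρ, h⟩ := hseg e he
    exact Pool.Agent.Helper634ord.Kak.baire_segment hclosed hρ (fun t ht => hKF (h t ht))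
  · intro K F hKF hclosed hord A hA hseg
    choose k f hf hp b hb using hord
    apply closed_interior hn b (K := F)
      (fun j => lcs_of_closed (hf j) (hp j) (hb j)) hA
    intro e he
    obtain ⟨a, ρ, hρ, h⟩ := hseg e he
    exact Pool.Agent.Helper634ord.Kak.baire_segment hclosed hρ (fun t ht => hKF (h t ht))
  · intro K hunit M hM
    have hpos : 0 < Module.finrank ℝ (E n) := by
      rw [finrank_euclideanSpace, Fintype.card_fin]; omega
    have hnt : Nontrivial (E n) := Module.finrank_pos_iff.1 hpos
    have hA : ¬ CoveredByHyperplanes ({0}ᶜ : Set (E n)) := by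
      apply h00
      intro h0
      have h3 : volume (univ : Set (E n)) ≤ volume ({0} : Set (E n)) + volume ({0}ᶜ : Set (E n)) := by
        rw [← Set.union_compl_self ({0} : Set (E n))]
        exact measure_union_le _ _
      rw [h0, measure_singleton, add_zero] at h3
      have h4 : 0 < volume (univ : Set (E n)) :=
        isOpen_univ.measure_pos volume ⟨0, mem_univ _⟩
      exact absurd h3 (not_le.2 h4)
    have hseg : HasSegments ({0}ᶜ : Set (E n)) K := by
      intro e he
      have hne : e ≠ 0 := he
      have hnorm : 0 < ‖e‖ := norm_pos_iff.2 hne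
      obtain ⟨a, ha⟩ := hunit (‖e‖⁻¹ • e) (by
        rw [norm_smul, norm_inv, norm_norm, inv_mul_cancel₀ hnorm.ne'])
      refine ⟨a, ‖e‖⁻¹, inv_pos.2 hnorm, fun t ht => ?_⟩
      have h5 := ha (t * ‖e‖) ⟨mul_nonneg ht.1 hnorm.le, by
        calc t * ‖e‖ ≤ ‖e‖⁻¹ * ‖e‖ := mul_le_mul_of_nonneg_right ht.2 hnorm.le
          _ = 1 := inv_mul_cancel₀ hnorm.ne'⟩
      rwa [smul_smul, mul_assoc, mul_inv_cancel₀ hnorm.ne', mul_one] at h5
    have hint : (interior M).Nonempty := by
      rcases hM with ⟨hK, rfl⟩ | ⟨b, rfl⟩
      · exact h2 M hK _ hA hseg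
      · exact (h1 K _ hA hseg b).1
    have hvol : 0 < volume M := by
      have h6 : 0 < volume (interior M) := isOpen_interior.measure_pos volume hint
      exact h6.trans_le (measure_mono interior_subset)
    refine ⟨hint, hvol, ?_, volume M, hvol, ?_⟩
    · rw [Real.dimH_of_nonempty_interior hint, finrank_euclideanSpace, Fintype.card_fin]
    · intro δ hδ
      exact measure_mono (self_subset_thickening hδ M)

end Pool.Agent.Results.MP_b1773a_an.OrderClosedKakeya
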