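import Pool.Agent.H668.Str.Final

/-!
# MP_b1773a_an: Kakeya sets whose slices are additively structured

Write points of `ℝ^(d+1)` as `(t, y)`, with height `t` and `y ∈ ℝ^d`, and let `K_t` be the slice of
`K` at height `t`.  Let `N_δ(E)` be the number of cells of the grid of step `δ` which meet `E ⊆ ℝ^d`.
A set `E` is `(δ, M)`-structured if it is covered by at most `M` bounded sets `D`, each with
`N_δ(D + D) ≤ M N_δ(D)` (small doubling at scale `δ`) and `N_δ(D) ≤ M N_δ(E)`.

If, for every `γ > 0` and all small `δ`, the slices of a Kakeya set `K` are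
`(δ, δ ^ (-γ))`-structured for all heights outside a set of measure at most `γ`, then `K` has lower
Minkowski dimension `d + 1`.  The statement is stable: for every `η > 0` there is `γ > 0`, depending
only on `d` and `η`, such that the hypothesis with this single `γ` gives lower Minkowski dimension at
least `d + 1 - η`.
-/

set_option autoImplicit false

open MeasureTheory Set Filter Topology
open scoped Pointwise

namespace Pool.Agent.Results.MP_b1773a_an.StructuredSlices

/-- The space `ℝ^(d+1)`. -/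
abbrev Space (d : ℕ) : Type := EuclideanSpace ℝ (Fin (d + 1))

/-- A Kakeya set: a compact set containing a unit segment in every direction. -/
def IsKakeya {d : ℕ} (K : Set (Space d)) : Prop :=
  IsCompact K ∧ ∀ e : Space d, ‖e‖ = 1 → ∃ a : Space d, ∀ t ∈ Icc (0 : ℝ) 1, a + t • e ∈ K

/-- The slice of `K ⊆ ℝ^(d+1)` at height `t`: the set of all `y ∈ ℝ^d` with `(t, y) ∈ K`. -/
def slice {d : ℕ} (K : Set (Space d)) (t : ℝ) : Set (Fin d → ℝ) :=
  {y | WithLp.toLp 2 (Fin.cons t y : Fin (d + 1) → ℝ) ∈ K}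

/-- The cells of the grid of step `δ` which meet `E ⊆ ℝ^d`; the index `z ∈ ℤ^d` stands for the
cell of all `x` with `δ z i ≤ x i < δ (z i + 1)`. -/
def cells {d : ℕ} (δ : ℝ) (E : Set (Fin d → ℝ)) : Set (Fin d → ℤ) :=
  (fun x i => ⌊x i / δ⌋) '' E

/-- The number of cells of the grid of step `δ` which meet `E`. -/
noncomputable def count {d : ℕ} (δ : ℝ) (E : Set (Fin d → ℝ)) : ℕ := (cells δ E).ncard

/-- `E` is covered by at most `M` bounded sets `D`, each with `N_δ(D + D) ≤ M N_δ(D)` and
`N_δ(D) ≤ M N_δ(E)`. -/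
def Structured {d : ℕ} (δ M : ℝ) (E : Set (Fin d → ℝ)) : Prop :=
  ∃ 𝒟 : Finset (Set (Fin d → ℝ)), (𝒟.card : ℝ) ≤ M ∧ (E ⊆ ⋃ D ∈ 𝒟, D) ∧
    ∀ D ∈ 𝒟, Bornology.IsBounded D ∧
      (count δ (D + D) : ℝ) ≤ M * count δ D ∧ (count δ D : ℝ) ≤ M * count δ E

/-- At all small scales `δ` the slice of `K` at height `t` is `(δ, δ ^ (-γ))`-structured, for all
heights `t` outside a set (which may depend on `δ`) of measure at most `γ`. -/
def MostSlices {d : ℕ} (γ : ℝ) (K : Set (Space d)) : Prop :=
  ∃ δ₀ : ℝ, 0 < δ₀ ∧ ∀ δ : ℝ, 0 < δ → δ < δ₀ →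
    volume {t : ℝ | ¬ Structured δ (δ ^ (-γ)) (slice K t)} ≤ ENNReal.ofReal γ

/-- The lower Minkowski dimension `n - limsup_{δ → 0+} log |N_δ K| / log δ`, in `ℝ^n` with
`n = d + 1`. -/
noncomputable def lowerMinkowski {d : ℕ} (K : Set (Space d)) : ℝ :=
  (d + 1 : ℕ) -
    limsup (fun δ : ℝ => Real.log (volume (Metric.thickening δ K)).toReal / Real.log δ) (𝓝[>] 0)

/-- **Kakeya sets with structured slices.**  For every `η > 0` there is `γ > 0` such that every
Kakeya set in `ℝ^(d+1)` whose slices are structured with exponent `γ` has lower Minkowski dimension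
at least `d + 1 - η`; and if the slices of a Kakeya set are structured with every exponent `γ > 0`,
then its lower Minkowski dimension is `d + 1`. -/
theorem result (d : ℕ) :
    (∀ η : ℝ, 0 < η → ∃ γ : ℝ, 0 < γ ∧ ∀ K : Set (Space d), IsKakeya K → MostSlices γ K →
      d + 1 - η ≤ lowerMinkowski K) ∧
    (∀ K : Set (Space d), IsKakeya K → (∀ γ : ℝ, 0 < γ → MostSlices γ K) →
      lowerMinkowski K = d + 1) := by
  constructor
  · intro η hη
    obtain ⟨γ, hγ, h⟩ := Pool.Agent.H668.Str.dim_ge d η hη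
    exact ⟨γ, hγ, fun K hK hs => h K hK.1.isBounded hK.2 hs⟩
  · intro K hK hs
    exact Pool.Agent.H668.Str.dim d K hK.1.isBounded hK.2 hs

end Pool.Agent.Results.MP_b1773a_an.StructuredSlices
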