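import Pool.Agent.Helper184.TM.UnifLaw

/-!
# Typical Kakeya sets are minimal, with uniform lower bounds (MP_b1773a_an)

Let `D` be a closed set of directions in `ℝⁿ` and let `KSpace D` be the complete metric space of
compact sets containing a unit segment in every direction of `D`, with the Hausdorff metric.
For every gauge function either the typical member of this space is null for the Hausdorff
measure, or all sets (compact or not) containing a unit segment in every direction of `D` have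
Hausdorff content bounded below by one positive constant.  The same dichotomy holds for the
volumes of neighbourhoods.  So typical sets attain the least Hausdorff and lower Minkowski
dimensions, and below these dimensions the lower bounds are uniform.
-/

open TopologicalSpace Metric Set Filter MeasureTheory
open scoped ENNReal NNReal Topology

namespace Pool.Agent.Results.MP_b1773a_an.TypicalMinimal

open Pool.Agent.Helper184.TM

variable {n : ℕ} {D : Set (EuclideanSpace ℝ (Fin n))}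

theorem gauge_tfae (hD : IsClosed D) (hne : D.Nonempty) (hsph : D ⊆ sphere 0 1)
    (h : ℝ≥0∞ → ℝ≥0∞) (hh : ∀ x, ContinuousWithinAt h (Ioi x) x) (hm : Monotone h)
    (h0 : h 0 = 0) (hp : ∀ x, 0 < x → 0 < h x) :
    [(∀ K : Set (EuclideanSpace ℝ (Fin n)), IsCompact K → HasSegments D K →
        Measure.mkMetric h K ≠ 0),
     (∃ᶠ K : KSpace D in residual (KSpace D),
        Measure.mkMetric h (K.1 : Set (EuclideanSpace ℝ (Fin n))) ≠ 0),
     (∃ c : ℝ≥0∞, 0 < c ∧ ∀ A : Set (EuclideanSpace ℝ (Fin n)), HasSegments D A →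
        ∀ U : ℕ → Set (EuclideanSpace ℝ (Fin n)), A ⊆ ⋃ k, U k → c ≤ ∑' k, h (ediam (U k)))
    ].TFAE := by
  tfae_have 1 → 2 := by
    intro hK
    exact frequently_of_residual hsph (Eventually.of_forall fun K => hK _ K.1.isCompact K.2)
  tfae_have 2 → 3 := by
    intro hK
    by_contra hcon
    push Not at hcon
    obtain ⟨K, hK1, hK2⟩ := (hK.and_eventually (unif_gauge hD hne hsph hh hm hp hcon)).exists
    exact hK1 hK2
  tfae_have 3 → 1 := by
    rintro ⟨c, hc, hA⟩ K _ hK hK0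
    have hη : 0 < min c 1 / 2 := ENNReal.half_pos (lt_min hc one_pos).ne'
    obtain ⟨U, -, hKU, -, hUs⟩ := null_cover (E := EuclideanSpace ℝ (Fin n)) hh hK0 one_pos
      ENNReal.one_ne_top hη
    have h1 := hA K hK U hKU
    have h2 : ∀ k, h (ediam (U k)) ≤ ⨆ _ : (U k).Nonempty, h (ediam (U k)) := fun k => by
      rcases (U k).eq_empty_or_nonempty with he | hne'
      · rw [he, ediam_empty, h0]; exact bot_le
      · simp [hne']
    have h3 : c ≤ min c 1 / 2 := h1.trans ((ENNReal.tsum_le_tsum h2).trans hUs)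
    have h4 : min c 1 / 2 < min c 1 :=
      ENNReal.half_lt_self (lt_min hc one_pos).ne'
        (ne_top_of_le_ne_top ENNReal.one_ne_top (min_le_right _ _))
    exact absurd (h3.trans_lt h4) (not_lt.2 (min_le_left _ _))
  tfae_finish

theorem hausdorff_uniform (hD : IsClosed D) (hne : D.Nonempty) (hsph : D ⊆ sphere 0 1)
    (s : ℝ) (hs : 0 < s) (hsk : ENNReal.ofReal s < kappaH D) :
    ∃ c : ℝ≥0∞, 0 < c ∧ ∀ A : Set (EuclideanSpace ℝ (Fin n)), HasSegments D A →
      ∀ U : ℕ → Set (EuclideanSpace ℝ (Fin n)), A ⊆ ⋃ k, U k → c ≤ ∑' k, ediam (U k) ^ s := by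
  refine ((gauge_tfae hD hne hsph (fun r : ℝ≥0∞ => r ^ s)
      (fun x => ENNReal.continuous_rpow_const.continuousWithinAt)
      (fun a b hab => ENNReal.rpow_le_rpow hab hs.le) (ENNReal.zero_rpow_of_pos hs)
      (fun x hx => ENNReal.rpow_pos_of_nonneg hx hs.le)).out 0 2).1 fun K _ hK hK0 => ?_
  have h1 : dimH K ≤ (s.toNNReal : ℝ≥0∞) := by
    refine dimH_le_of_hausdorffMeasure_ne_top ?_
    have hK0' : μH[s] K = 0 := hK0
    rw [Real.coe_toNNReal s hs.le, hK0']
    exact ENNReal.zero_ne_top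
  exact absurd (hsk.trans_le ((iInf₂_le K hK).trans h1)) (lt_irrefl _)

theorem kappaM_le (hne : D.Nonempty) (hsph : D ⊆ sphere 0 1) : kappaM D ≤ (n : EReal) := by
  obtain ⟨K⟩ := nonempty_space hsph
  exact (iInf₂_le (K.1 : Set (EuclideanSpace ℝ (Fin n))) ⟨K.2, K.1.isCompact.isBounded⟩).trans
    (lower_le_n (nonempty_of_hasSegments hne K.2) K.1.isCompact.isBounded)

theorem minkowski_uniform (hD : IsClosed D) (hne : D.Nonempty) (hsph : D ⊆ sphere 0 1)
    (q : ℝ) (hq : (q : EReal) < kappaM D) :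
    ∃ c : ℝ, 0 < c ∧ ∀ A : Set (EuclideanSpace ℝ (Fin n)), HasSegments D A →
      ∀ δ : ℝ, 0 < δ → δ < 1 → ENNReal.ofReal (c * δ ^ ((n : ℝ) - q)) ≤ volume (thickening δ A) := by
  by_contra hcon
  push Not at hcon
  obtain ⟨q', hq1, hq2⟩ := EReal.lt_iff_exists_real_btwn.1 hq
  have hqq' : q < q' := by exact_mod_cast hq1
  have hn : (n : EReal) = ((n : ℝ) : EReal) := by simp
  have hq'n : q' < n := by
    have := hq2.trans_le (kappaM_le hne hsph)
    rw [hn] at this
    exact_mod_cast this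
  have hcon' : ∀ c : ℝ, 0 < c → ∃ A : Set (EuclideanSpace ℝ (Fin n)), HasSegments D A ∧
      ∃ δ : ℝ, 0 < δ ∧ δ < 1 ∧ volume (thickening δ A) < ENNReal.ofReal (c * δ ^ ((n : ℝ) - q)) := hcon
  obtain ⟨K, hK1, hK2⟩ := exists_member hsph
    ((unif_mink hD hne hsph (e := (n : ℝ) - q) (e' := (n : ℝ) - q') (by linarith) (by linarith)
      hcon').and (mink_part hD hne hsph))
  rw [hK2] at hK1
  have h1 : (n : ℝ) - ((n : ℝ) - q') = q' := by ring
  rw [h1] at hK1
  exact absurd (hK1.trans_lt hq2) (lt_irrefl _)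

theorem hausdorff_iff (hD : IsClosed D) (hne : D.Nonempty) (hsph : D ⊆ sphere 0 1) :
    (∀ K : Set (EuclideanSpace ℝ (Fin n)), IsCompact K → HasSegments D K → dimH K = n) ↔
      ∀ s : ℝ, 0 < s → s < n → ∃ c : ℝ≥0∞, 0 < c ∧
        ∀ A : Set (EuclideanSpace ℝ (Fin n)), HasSegments D A →
        ∀ U : ℕ → Set (EuclideanSpace ℝ (Fin n)), A ⊆ ⋃ k, U k → c ≤ ∑' k, ediam (U k) ^ s := by
  constructor
  · intro h s hs hsn
    refine hausdorff_uniform hD hne hsph s hs ?_
    obtain ⟨K, hK⟩ := exists_member hsph (dim_part hD hne hsph)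
    rw [← hK, h _ K.1.isCompact K.2, ENNReal.ofReal_lt_natCast (by
      intro h0; rw [h0] at hsn; simp at hsn; linarith)]
    exact hsn
  · intro h K _ hK
    refine le_antisymm (dimH_le_n K) ?_
    by_contra hcon
    rw [not_le] at hcon
    obtain ⟨q, hq1, hq2⟩ := ENNReal.lt_iff_exists_nnreal_btwn.1 hcon
    have hq0 : (0 : ℝ) < q := by
      have h3 : (0 : ℝ≥0∞) < (q : ℝ≥0∞) := (bot_le : (0 : ℝ≥0∞) ≤ _).trans_lt hq1
      exact_mod_cast h3
    have hqn : (q : ℝ) < n := by
      have h3 : (q : ℝ≥0∞) < ((n : ℝ≥0) : ℝ≥0∞) := by simpa using hq2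
      have h4 : q < (n : ℝ≥0) := by exact_mod_cast h3
      exact_mod_cast h4
    obtain ⟨c, hc, hA⟩ := h q hq0 hqn
    have hK0 : μH[(q : ℝ)] K = 0 := hausdorffMeasure_of_dimH_lt hq1
    have hη : 0 < min c 1 / 2 := ENNReal.half_pos (lt_min hc one_pos).ne'
    obtain ⟨U, -, hKU, -, hUs⟩ := null_cover (E := EuclideanSpace ℝ (Fin n))
      (h := fun r : ℝ≥0∞ => r ^ (q : ℝ))
      (fun x => ENNReal.continuous_rpow_const.continuousWithinAt) hK0 one_pos
      ENNReal.one_ne_top hη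
    have h1 := hA K hK U hKU
    have h2 : ∀ k, ediam (U k) ^ (q : ℝ) ≤ ⨆ _ : (U k).Nonempty, ediam (U k) ^ (q : ℝ) := fun k => by
      rcases (U k).eq_empty_or_nonempty with he | hne'
      · rw [he, ediam_empty, ENNReal.zero_rpow_of_pos hq0]; exact bot_le
      · simp [hne']
    have h3 : c ≤ min c 1 / 2 := h1.trans ((ENNReal.tsum_le_tsum h2).trans hUs)
    have h4 : min c 1 / 2 < min c 1 :=
      ENNReal.half_lt_self (lt_min hc one_pos).ne'
        (ne_top_of_le_ne_top ENNReal.one_ne_top (min_le_right _ _))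
    exact absurd (h3.trans_lt h4) (not_lt.2 (min_le_left _ _))

theorem minkowski_iff (hD : IsClosed D) (hne : D.Nonempty) (hsph : D ⊆ sphere 0 1) :
    (∀ K : Set (EuclideanSpace ℝ (Fin n)), IsCompact K → HasSegments D K →
        lowerMinkowski K = n) ↔
      ∀ ε : ℝ, 0 < ε → ∃ c : ℝ, 0 < c ∧
        ∀ A : Set (EuclideanSpace ℝ (Fin n)), HasSegments D A → ∀ δ : ℝ, 0 < δ → δ < 1 →
          ENNReal.ofReal (c * δ ^ ε) ≤ volume (thickening δ A) := by
  have h1 : (n : EReal) = ((n : ℝ) : EReal) := by simp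
  constructor
  · intro h ε hε
    obtain ⟨K, hK⟩ := exists_member hsph (mink_part hD hne hsph)
    have h2 := minkowski_uniform hD hne hsph ((n : ℝ) - ε) (by
      rw [← hK, h _ K.1.isCompact K.2, h1, EReal.coe_lt_coe_iff]
      linarith)
    have h3 : (n : ℝ) - ((n : ℝ) - ε) = ε := by ring
    rwa [h3] at h2
  · intro h K hKc hK
    refine le_antisymm (lower_le_n (nonempty_of_hasSegments hne hK) hKc.isBounded) ?_
    by_contra hcon
    rw [not_le] at hcon
    obtain ⟨q, hq1, hq2⟩ := EReal.lt_iff_exists_real_btwn.1 hcon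
    rw [h1, EReal.coe_lt_coe_iff] at hq2
    have hfr := frequently_of_lt (nonempty_of_hasSegments hne hK) hKc.isBounded hq1
    obtain ⟨c, hc, hcA⟩ := h (((n : ℝ) - q) / 2) (by linarith)
    have h2 : Tendsto (fun δ : ℝ => δ ^ (((n : ℝ) - q) / 2)) (𝓝[>] 0) (𝓝 0) := by
      have := (Real.continuousAt_rpow_const 0 (((n : ℝ) - q) / 2) (Or.inr (by linarith))).tendsto
      rw [Real.zero_rpow (by linarith : ((n : ℝ) - q) / 2 ≠ 0)] at this
      exact this.mono_left nhdsWithin_le_nhds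
    have h3 : ∀ᶠ δ in 𝓝[>] (0 : ℝ), 0 < δ ∧ δ < 1 := by
      filter_upwards [Ioo_mem_nhdsGT (zero_lt_one' ℝ)] with δ hδ using hδ
    obtain ⟨δ, hv, ⟨hδ0, hδ1⟩, hδc⟩ :=
      (hfr.and_eventually (h3.and (h2.eventually (gt_mem_nhds hc)))).exists
    have h4 := (hcA K hK δ hδ0 hδ1).trans hv
    rw [ENNReal.ofReal_le_ofReal_iff (Real.rpow_nonneg hδ0.le _)] at h4
    have h5 : δ ^ ((n : ℝ) - q) = δ ^ (((n : ℝ) - q) / 2) * δ ^ (((n : ℝ) - q) / 2) := by
      rw [← Real.rpow_add hδ0]; congr 1; ring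
    have h6 : 0 < δ ^ (((n : ℝ) - q) / 2) := Real.rpow_pos_of_pos hδ0 _
    rw [h5] at h4
    have h7 := le_of_mul_le_mul_right h4 h6
    linarith

/-- **Typical Kakeya sets are minimal, with uniform lower bounds.** -/
theorem result (n : ℕ) (D : Set (EuclideanSpace ℝ (Fin n))) (hD : IsClosed D)
    (hne : D.Nonempty) (hsph : D ⊆ sphere 0 1) :
    -- the compact sets with unit segments in all directions of `D` form a complete metric space
    (CompleteSpace (KSpace D) ∧ Nonempty (KSpace D)) ∧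
    -- dichotomy for every gauge function
    (∀ h : ℝ≥0∞ → ℝ≥0∞, (∀ x, ContinuousWithinAt h (Ioi x) x) → Monotone h → h 0 = 0 →
      (∀ x, 0 < x → 0 < h x) →
      [(∀ K : Set (EuclideanSpace ℝ (Fin n)), IsCompact K → HasSegments D K →
          Measure.mkMetric h K ≠ 0),
       (∃ᶠ K : KSpace D in residual (KSpace D),
          Measure.mkMetric h (K.1 : Set (EuclideanSpace ℝ (Fin n))) ≠ 0),
       (∃ c : ℝ≥0∞, 0 < c ∧ ∀ A : Set (EuclideanSpace ℝ (Fin n)), HasSegments D A →
          ∀ U : ℕ → Set (EuclideanSpace ℝ (Fin n)), A ⊆ ⋃ k, U k → c ≤ ∑' k, h (ediam (U k)))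
      ].TFAE) ∧
    -- typical sets have the least possible dimensions
    (∀ᶠ K : KSpace D in residual (KSpace D),
      dimH (K.1 : Set (EuclideanSpace ℝ (Fin n))) = kappaH D ∧
      lowerMinkowski (K.1 : Set (EuclideanSpace ℝ (Fin n))) = kappaM D) ∧
    -- uniform volume bounds below the least lower Minkowski dimension
    (∀ q : ℝ, (q : EReal) < kappaM D → ∃ c : ℝ, 0 < c ∧
      ∀ A : Set (EuclideanSpace ℝ (Fin n)), HasSegments D A → ∀ δ : ℝ, 0 < δ → δ < 1 →
        ENNReal.ofReal (c * δ ^ ((n : ℝ) - q)) ≤ volume (thickening δ A)) ∧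
    -- the two Kakeya conjectures for `D` in uniform form
    ((∀ K : Set (EuclideanSpace ℝ (Fin n)), IsCompact K → HasSegments D K → dimH K = n) ↔
      ∀ s : ℝ, 0 < s → s < n → ∃ c : ℝ≥0∞, 0 < c ∧
        ∀ A : Set (EuclideanSpace ℝ (Fin n)), HasSegments D A →
        ∀ U : ℕ → Set (EuclideanSpace ℝ (Fin n)), A ⊆ ⋃ k, U k → c ≤ ∑' k, ediam (U k) ^ s) ∧
    ((∀ K : Set (EuclideanSpace ℝ (Fin n)), IsCompact K → HasSegments D K →
        lowerMinkowski K = n) ↔
      ∀ ε : ℝ, 0 < ε → ∃ c : ℝ, 0 < c ∧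
        ∀ A : Set (EuclideanSpace ℝ (Fin n)), HasSegments D A → ∀ δ : ℝ, 0 < δ → δ < 1 →
          ENNReal.ofReal (c * δ ^ ε) ≤ volume (thickening δ A)) := by
  refine ⟨⟨complete_space, nonempty_space hsph⟩, gauge_tfae hD hne hsph, ?_,
    minkowski_uniform hD hne hsph, hausdorff_iff hD hne hsph, minkowski_iff hD hne hsph⟩
  filter_upwards [dim_part hD hne hsph, mink_part hD hne hsph] with K h1 h2 using ⟨h1, h2⟩

end Pool.Agent.Results.MP_b1773a_an.TypicalMinimal
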